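import Pool.Agent.D0H39.NL.Stm3

/-! # NL26: locally injective submanifolds have signs (helper22; statement and proof of helper39) -/

set_option autoImplicit false

open Set Topology Metric Function
open Filter hiding mk
open scoped ContDiff RealInnerProductSpace

noncomputable section

namespace Pool.Agent.D0H22.NL

open Pool.Agent.D0H39.NL

variable {n : ℕ}

theorem latt_neg (k : Fin n → ℤ) : latt (-k) = -latt k := by
  ext i
  simp [latt]

/-- the difference quotients of a curve in `Λ` -/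
theorem quot {Λ : Set (E n × E n)} {w a : E n × E n} (h : IsTangent Λ w a) :
    ∃ c : ℝ → E n × E n, (∀ᶠ t in 𝓝[≠] (0 : ℝ), c t ∈ Λ) ∧ Tendsto c (𝓝[≠] 0) (𝓝 w) ∧ w ∈ Λ ∧
      Tendsto (fun t : ℝ => t⁻¹ • ((c t).1 - w.1)) (𝓝[≠] 0) (𝓝 a.1) ∧
      Tendsto (fun t : ℝ => t⁻¹ • ((c t).2 - w.2)) (𝓝[≠] 0) (𝓝 a.2) := by
  obtain ⟨c, hc, hcΛ, hc0, hca⟩ := h
  have hcd : HasDerivAt c a 0 := by
    rw [← hca]
    exact (hc.differentiableAt (by simp)).hasDerivAt
  have h1 := hasDerivAt_iff_tendsto_slope_zero.1 hcd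
  have hw : w ∈ Λ := by
    rw [← hc0]
    exact hcΛ.self_of_nhds
  refine ⟨c, hcΛ.filter_mono nhdsWithin_le_nhds, ?_, hw, ?_, ?_⟩
  · have h2 : Tendsto c (𝓝 0) (𝓝 (c 0)) := hcd.continuousAt
    rw [hc0] at h2
    exact h2.mono_left nhdsWithin_le_nhds
  · have h2 := (continuous_fst.tendsto a).comp h1
    refine h2.congr (fun t => ?_)
    simp [hc0]
  · have h2 := (continuous_snd.tendsto a).comp h1
    refine h2.congr (fun t => ?_)
    simp [hc0]

theorem oneSided_shift {Λ : Set (E n × E n)} (hper : ∀ z ∈ Λ, ∀ k : Fin n → ℤ,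
    (z.1 + latt k, z.2) ∈ Λ) (z : E n × E n) (k : Fin n → ℤ) (ε : ℝ)
    (h : OneSidedNear Λ z ε) : OneSidedNear Λ (z.1 + latt k, z.2) ε := by
  obtain ⟨C, r, hC, hr, h⟩ := h
  refine ⟨C, r, hC, hr, fun w hw w' hw' h1 h2 => ?_⟩
  have e : ∀ u : E n × E n, ((u.1 + latt (-k), u.2) : E n × E n) - z =
      u - (z.1 + latt k, z.2) := by
    intro u
    rw [latt_neg]
    ext1
    · simp only [Prod.fst_sub]
      abel
    · simp
  have h3 := h (w.1 + latt (-k), w.2) (hper w hw _) (w'.1 + latt (-k), w'.2) (hper w' hw' _)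
    (by rw [e]; exact h1) (by rw [e]; exact h2)
  have e2 : w.1 + latt (-k) - (w'.1 + latt (-k)) = w.1 - w'.1 := by abel
  simp only [e2] at h3
  exact h3

theorem t_LIS (hC : S_CHART) (hS1 : S_SIGN1) (hS2 : S_SIGN2) (hP : S_PAIR) (hB : S_BOTH) :
    S_LIS := by
  classical
  intro n Λ hL hss hinj
  have hone : ∀ z ∈ Λ, ∃ ε : ℝ, (ε = 1 ∨ ε = -1) ∧ OneSidedNear Λ z ε := by
    intro z hz
    obtain ⟨P, η, ρ, r, h⟩ := hC n Λ hL z hz
    rcases hss z hz with h1 | h1
    · obtain ⟨ρ₁, r₁, ε, M, hg⟩ := hS1 n Λ z P η ρ r h h1 (hinj z hz)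
      exact ⟨ε, hg.eps, hP n Λ z P η ρ₁ r₁ ε M hg⟩
    · obtain ⟨ρ₁, r₁, ε, M, hg⟩ := hS2 n Λ z P η ρ r h h1
      exact ⟨ε, hg.eps, hP n Λ z P η ρ₁ r₁ ε M hg⟩
  have hnot : ∀ z ∈ Λ, IsVertical Λ z → OneSidedNear Λ z 1 → OneSidedNear Λ z (-1) → False := by
    intro z hz hv h1 h2
    obtain ⟨P, η, ρ, r, h⟩ := hC n Λ hL z hz
    obtain ⟨C, r', hC0, hr', hlip⟩ := hB n Λ z P η ρ r h (hinj z hz) h1 h2
    obtain ⟨a, ha0, hta⟩ := hv
    obtain ⟨c, hc1, hc2, _, hc3, hc4⟩ := quot hta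
    have hnear : ∀ᶠ t in 𝓝[≠] (0 : ℝ), ‖c t - z‖ < r' := by
      have h3 : Tendsto (fun t => ‖c t - z‖) (𝓝[≠] 0) (𝓝 0) := by
        have := (hc2.sub_const z).norm
        simpa using this
      exact h3.eventually (gt_mem_nhds hr')
    have hle : ∀ᶠ t in 𝓝[≠] (0 : ℝ), ‖t⁻¹ • ((c t).2 - z.2)‖ ≤ C * ‖t⁻¹ • ((c t).1 - z.1)‖ := by
      filter_upwards [hc1, hnear] with t h3 h4
      have h5 := hlip (c t) h3 z hz h4 (by rw [sub_self, norm_zero]; exact hr')
      rw [norm_smul, norm_smul]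
      have h6 : ‖t⁻¹‖ * ‖(c t).2 - z.2‖ ≤ ‖t⁻¹‖ * (C * ‖(c t).1 - z.1‖) :=
        mul_le_mul_of_nonneg_left h5 (norm_nonneg _)
      linarith
    have hlim := le_of_tendsto_of_tendsto hc4.norm (hc3.norm.const_mul C) hle
    simp only [norm_zero, mul_zero] at hlim
    exact ha0 (norm_le_zero_iff.1 hlim)
  set σ : E n × E n → ℝ := fun z => if OneSidedNear Λ z 1 then 1 else -1 with hσ
  have hσ1 : ∀ z, σ z = 1 ∨ σ z = -1 := by
    intro z
    by_cases h : OneSidedNear Λ z 1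
    · exact Or.inl (if_pos h)
    · exact Or.inr (if_neg h)
  have hσs : ∀ z ∈ Λ, OneSidedNear Λ z (σ z) := by
    intro z hz
    by_cases h : OneSidedNear Λ z 1
    · have : σ z = 1 := if_pos h
      rw [this]; exact h
    · have : σ z = -1 := if_neg h
      rw [this]
      obtain ⟨ε, hε | hε, h1⟩ := hone z hz
      · rw [hε] at h1; exact absurd h1 h
      · rw [hε] at h1; exact h1
  refine ⟨σ, ?_, hσ1, ?_⟩
  · intro z k
    have h1 : OneSidedNear Λ (z.1 + latt k, z.2) 1 ↔ OneSidedNear Λ z 1 := by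
      constructor
      · intro h
        have h2 := oneSided_shift hL.per _ (-k) 1 h
        have e : ((z.1 + latt k + latt (-k), z.2) : E n × E n) = z := by
          rw [latt_neg, add_neg_cancel_right]
        simp only [e] at h2
        exact h2
      · exact oneSided_shift hL.per z k 1
    simp only [hσ, h1]
  · intro z hz hv
    obtain ⟨C, r, hC0, hr, h⟩ := hσs z hz
    refine ⟨max C 1, r / 2, by linarith, ?_⟩
    intro w hw hwz
    have hw' : OneSidedNear Λ w (σ z) := by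
      refine ⟨C, r / 2, hC0, by linarith, fun u hu u' hu' h1 h2 => ?_⟩
      refine h u hu u' hu' ?_ ?_
      · calc ‖u - z‖ = ‖(u - w) + (w - z)‖ := by rw [sub_add_sub_cancel]
          _ ≤ ‖u - w‖ + ‖w - z‖ := norm_add_le _ _
          _ < r := by linarith
      · calc ‖u' - z‖ = ‖(u' - w) + (w - z)‖ := by rw [sub_add_sub_cancel]
          _ ≤ ‖u' - w‖ + ‖w - z‖ := norm_add_le _ _
          _ < r := by linarith
    refine ⟨?_, ?_⟩
    · intro hvw
      have h1 := hσs w hw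
      rcases hσ1 w with e1 | e1 <;> rcases hσ1 z with e2 | e2
      · rw [e1, e2]
      · rw [e1] at h1; rw [e2] at hw'
        exact (hnot w hw hvw h1 hw').elim
      · rw [e1] at h1; rw [e2] at hw'
        exact (hnot w hw hvw hw' h1).elim
      · rw [e1, e2]
    · intro a hta
      obtain ⟨C', r', hC0', hr', h'⟩ := hw'
      obtain ⟨c, hc1, hc2, _, hc3, hc4⟩ := quot hta
      refine ⟨?_, ?_⟩
      · obtain ⟨c, hc1, hc2, _, hc3, hc4⟩ := quot hta
        have hnear : ∀ᶠ t in 𝓝[≠] (0 : ℝ), ‖c t - w‖ < r / 2 := by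
          have h3 : Tendsto (fun t => ‖c t - w‖) (𝓝[≠] 0) (𝓝 0) := by
            have := (hc2.sub_const w).norm
            simpa using this
          exact h3.eventually (gt_mem_nhds (by linarith))
        have hle : ∀ᶠ t in 𝓝[≠] (0 : ℝ), -C * ‖t⁻¹ • ((c t).1 - w.1)‖ ^ 2 ≤
            σ z * ⟪t⁻¹ • ((c t).1 - w.1), t⁻¹ • ((c t).2 - w.2)⟫ := by
          filter_upwards [hc1, hnear] with t h3 h4
          have h5 := h (c t) h3 w hw (by
            calc ‖c t - z‖ = ‖(c t - w) + (w - z)‖ := by rw [sub_add_sub_cancel]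
              _ ≤ ‖c t - w‖ + ‖w - z‖ := norm_add_le _ _
              _ < r := by linarith) (by linarith)
          rw [norm_smul, real_inner_smul_left, real_inner_smul_right, mul_pow]
          have h6 : ‖t⁻¹‖ ^ 2 = t⁻¹ ^ 2 := by rw [Real.norm_eq_abs, sq_abs]
          rw [h6]
          have h7 := mul_le_mul_of_nonneg_left h5 (sq_nonneg t⁻¹)
          nlinarith [h7]
        have hlim := le_of_tendsto_of_tendsto ((hc3.norm.pow 2).const_mul (-C))
          ((hc3.inner hc4).const_mul (σ z)) hle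
        have hle2 : -(max C 1) * ‖a.1‖ ^ 2 ≤ -C * ‖a.1‖ ^ 2 := by
          have := mul_le_mul_of_nonneg_right (le_max_left C 1) (sq_nonneg ‖a.1‖)
          linarith
        exact hle2.trans hlim
      · have h1 : (1 : ℝ) ≤ max C 1 := le_max_right _ _
        have h2 : 0 ≤ ‖a.2‖ + ‖a.1‖ := by positivity
        have h3 := mul_le_mul_of_nonneg_right h1 h2
        have h4 := norm_nonneg a.1
        simp only [ContinuousLinearMap.coe_id', id_eq]
        linarith

end Pool.Agent.D0H22.NL
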