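import Pool.Agent.D0H22.NL.Lis
import Pool.Agent.D0H39.NL.Chart
import Pool.Agent.D0H98.NL.Sign1
import Pool.Agent.D0H98.NL.Sign2
import Pool.Agent.D0H98.NL.Both
import Pool.Agent.D0H23.NL.Pair

/-! # NL26 without hypotheses (helper22) -/

set_option autoImplicit false

namespace Pool.Agent.D0H22.NL

open Pool.Agent.D0H39.NL

theorem t_LIS' : S_LIS :=
  t_LIS t_CHART (Pool.Agent.D0H98.NL.t_SIGN1 t_SHRINK) (Pool.Agent.D0H98.NL.t_SIGN2 t_SHRINK)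
    Pool.Agent.D0H23.NL.t_PAIR (Pool.Agent.D0H98.NL.t_BOTH t_SHRINK)

end Pool.Agent.D0H22.NL
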