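import Pool.Agent.D0H39.NL.Stm3
import Pool.Agent.D0H98.NL.Tan
import Pool.Agent.D0H39.NL.Chart

/-! # NL22: the potential of a sheet (helper22; statement and proof of helper39) -/

set_option autoImplicit false

open Set Topology Metric Function
open Filter hiding mk
open scoped ContDiff RealInnerProductSpace

noncomputable section

namespace Pool.Agent.D0H22.NL

open Pool.Agent.D0H39.NL

/-- the inner product as a continuous bilinear map over `ℝ` -/
def inL (n : ℕ) : E n →L[ℝ] E n →L[ℝ] ℝ :=
  LinearMap.mkContinuous₂ (innerₗ (E n)) 1 (fun x y => by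
    simpa using norm_inner_le_norm (𝕜 := ℝ) x y)

theorem inL_apply {n : ℕ} (x y : E n) : inL n x y = ⟪x, y⟫ := rfl

theorem t_POT (hC : S_CHART) : S_POT := by
  intro n Λ hL hnv s hs
  have key : ∀ q, DifferentiableAt ℝ s q ∧ ∀ u v, ⟪fderiv ℝ s q u, v⟫ = ⟪u, fderiv ℝ s q v⟫ := by
    intro q
    set z : E n × E n := (q, s q) with hzd
    have hz : z ∈ Λ := hs.2 q
    obtain ⟨P, η, ρ, r, h⟩ := hC n Λ hL z hz
    have hP := h.proj
    have hK : ∀ k, P k = k → k = 0 := by
      intro k hk
      by_contra hk0
      apply hnv z hz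
      refine ⟨k, hk0, ?_⟩
      rw [Pool.Agent.D0H98.NL.t_TAN n Λ z P η ρ r h z hz
        (by rw [sub_self, norm_zero]; exact h.hr) (0, k)]
      have h1 : chi P ((0 : E n), k) = k := by
        unfold chi
        simp [hk]
      rw [h1, h.vert k hk]
      unfold D0H39.NL.mk
      simp [hk]
    have hP0 : ∀ u, P u = 0 := fun u => hK _ (hP.1 u)
    have hchi : ∀ w : E n × E n, chi P w = w.1 := by
      intro w
      unfold chi
      rw [hP0, hP0]
      simp
    have hmk : ∀ x y : E n, mk P x y = (x, y) := by
      intro x y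
      unfold D0H39.NL.mk
      rw [hP0, hP0]
      simp
    have hq0 : chi P z = q := hchi z
    have hcont : ContinuousAt (fun q' => ‖((q', s q') : E n × E n) - z‖) q :=
      ((continuousAt_id.prodMk hs.1.continuousAt).sub continuousAt_const).norm
    have hev : ∀ᶠ q' in 𝓝 q, ‖((q', s q') : E n × E n) - z‖ < r := by
      refine hcont.eventually_lt continuousAt_const ?_
      rw [hzd, sub_self, norm_zero]
      exact h.hr
    have heq : s =ᶠ[𝓝 q] η := by
      filter_upwards [hev] with q' hq'
      have h1 := (h.cover (q', s q') (hs.2 q') hq').2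
      rw [hchi, hmk] at h1
      exact (congrArg Prod.snd h1).symm
    have hball : ball (chi P z) ρ ∈ 𝓝 q := by
      rw [hq0]
      exact ball_mem_nhds q h.hρ
    have hd : DifferentiableAt ℝ η q := (h.smooth.contDiffAt hball).differentiableAt (by simp)
    refine ⟨hd.congr_of_eventuallyEq heq, fun u v => ?_⟩
    rw [heq.fderiv_eq]
    exact h.symm q (mem_of_mem_nhds hball) u v
  have hω : ∀ q, HasFDerivAt (fun q => innerSL ℝ (s q)) ((inL n).comp (fderiv ℝ s q)) q := by
    intro q
    exact (inL n).hasFDerivAt.comp q (key q).1.hasFDerivAt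
  have hD : DifferentiableOn ℝ (fun q => innerSL ℝ (s q)) (univ : Set (E n)) :=
    fun q _ => (hω q).differentiableAt.differentiableWithinAt
  obtain ⟨f, hf⟩ := Convex.exists_forall_hasFDerivAt_of_fderiv_symmetric convex_univ
    isOpen_univ hD (by
      intro a _ x y
      rw [(hω a).fderiv]
      show ⟪fderiv ℝ s a x, y⟫ = ⟪fderiv ℝ s a y, x⟫
      rw [(key a).2 x y, real_inner_comm])
  exact ⟨f, fun q => hf q (mem_univ q)⟩

theorem t_POT' : S_POT := t_POT t_CHART

end Pool.Agent.D0H22.NL
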